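import Mathlib

set_option autoImplicit false

namespace Pool.Agent.H.MP_148afe_an

open MeasureTheory FourierTransform Real Filter Topology

/-- Euclidean space -/
abbrev E (d : ℕ) := EuclideanSpace ℝ (Fin d)

variable {d : ℕ}

/-- continuous with compact support -/
def Cc (g : E d → ℂ) : Prop := Continuous g ∧ HasCompactSupport g

/-- vague convergence of the measures with densities `F n` to the measure with density `G` -/
def Vague (F : ℕ → E d → ℂ) (G : E d → ℂ) : Prop :=
  ∀ g, Cc g → Tendsto (fun n => ∫ x, g x * F n x) atTop (𝓝 (∫ x, g x * G x))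

/-- convolution -/
noncomputable def cv (f h : E d → ℂ) (x : E d) : ℂ := ∫ t, f t * h (x - t)

/-- inverse Fourier transform -/
noncomputable def ck (g : E d → ℂ) : E d → ℂ := 𝓕⁻ g

theorem Cc.int {g : E d → ℂ} (h : Cc g) : Integrable g := h.1.integrable_of_hasCompactSupport h.2

theorem cv_int {f h : E d → ℂ} (a : Integrable f) (b : Integrable h) : Integrable (cv f h) :=
  a.integrable_convolution (.mul ℂ ℂ) b

theorem ck_cont {g : E d → ℂ} (h : Integrable g) : Continuous (ck g) :=
  VectorFourier.fourierIntegral_continuous continuous_fourierChar continuous_inner.neg h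

theorem ck_le (g : E d → ℂ) (x : E d) : ‖ck g x‖ ≤ ∫ t, ‖g t‖ :=
  VectorFourier.norm_fourierIntegral_le_integral_norm _ _ _ _ _

theorem ck_mul {g G : E d → ℂ} (h : Integrable g) (k : Integrable G) : Integrable fun x => ck g x * G x :=
  k.bdd_mul (ck_cont h).aestronglyMeasurable (.of_forall (ck_le g))

theorem dual {g G : E d → ℂ} (h : Integrable g) (k : Integrable G) :
    ∫ x, g x * ck G x = ∫ x, ck g x * G x := by
  have := VectorFourier.integral_fourierIntegral_smul_eq_flip (L := -innerₗ (E d)) continuous_fourierChar
    continuous_inner.neg h k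
  rw [show (-innerₗ (E d)).flip = -innerₗ (E d) by ext; simp [real_inner_comm]] at this
  exact this.symm

end Pool.Agent.H.MP_148afe_an
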